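import Pool.Agent.W529.ST.Wrap

/-! The defects of a family of functions which are governed by quadratic characters. -/

set_option autoImplicit false

namespace Pool.Agent.U681.STw

open NumberField IsDedekindDomain Filter Topology
open Pool.Agent.W529.ST (ch ch_abs ch_dichotomy mean_def mean_off bessel_unif finite_bad)

variable {F : Type} [Field F] [NumberField F]

theorem mn_abs {φ : HeightOneSpectrum (𝓞 F) → ℝ} {B : ℝ} (hB : 0 ≤ B) (h : ∀ v, |φ v| ≤ B) (N : ℕ) :
    |W529.ST.mean F φ N| ≤ B := by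
  obtain ⟨t, _, _, hmean⟩ := mean_def (F := F) (fun _ => 0) N
  rw [hmean, abs_div, abs_of_nonneg (Nat.cast_nonneg t.card : (0 : ℝ) ≤ _)]
  refine div_le_of_le_mul₀ (Nat.cast_nonneg _) hB ?_
  refine (Finset.abs_sum_le_sum_abs _ _).trans ((Finset.sum_le_sum fun v _ => h v).trans ?_)
  rw [Finset.sum_const, nsmul_eq_mul, mul_comm]

theorem mn_lin (a b : ℝ) (φ ψ : HeightOneSpectrum (𝓞 F) → ℝ) (N : ℕ) :
    W529.ST.mean F (fun v => a * φ v + b * ψ v) N = a * W529.ST.mean F φ N + b * W529.ST.mean F ψ N := by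
  obtain ⟨t, _, _, hmean⟩ := mean_def (F := F) (fun _ => 0) N
  simp only [hmean]
  rw [Finset.sum_add_distrib, ← Finset.mul_sum, ← Finset.mul_sum]
  ring

/-- the means of bounded functions that agree off a finite set -/
theorem tendsto_off {Z : Set (HeightOneSpectrum (𝓞 F))} (hZ : Z.Finite)
    {φ ψ : HeightOneSpectrum (𝓞 F) → ℝ} {c : ℝ} (hc : ∀ v, |φ v - ψ v| ≤ c)
    (h : ∀ v, v ∉ Z → φ v = ψ v) : Tendsto (fun N => W529.ST.mean F φ N - W529.ST.mean F ψ N) atTop (𝓝 0) := by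
  set b : ℝ := |c| + 1 with hb
  have hb0 : 0 < b := by positivity
  rw [Metric.tendsto_atTop']
  intro ε hε
  obtain ⟨n, hn⟩ := eventually_atTop.1 (mean_off (F := F) hZ (ε := ε / (2 * b)) (by positivity))
  refine ⟨n, fun N hN => ?_⟩
  have h1 := hn N hN.le (fun v => (1 / b) * φ v + 0 * φ v) (fun v => (1 / b) * ψ v + 0 * ψ v)
    (fun v => ?_) (fun v hv => by rw [h v hv])
  · rw [mn_lin, mn_lin, zero_mul, zero_mul, add_zero, add_zero, ← mul_sub, abs_mul,
      abs_of_pos (by positivity : 0 < 1 / b)] at h1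
    rw [dist_zero_right, Real.norm_eq_abs]
    have h2 : |W529.ST.mean F φ N - W529.ST.mean F ψ N| = b * (1 / b * |W529.ST.mean F φ N - W529.ST.mean F ψ N|) := by
      field_simp
    rw [h2]
    calc b * (1 / b * |W529.ST.mean F φ N - W529.ST.mean F ψ N|) ≤ b * (ε / (2 * b)) :=
          mul_le_mul_of_nonneg_left h1 hb0.le
      _ = ε / 2 := by field_simp
      _ < ε := by linarith
  · have h2 : 1 / b * φ v + 0 * φ v - (1 / b * ψ v + 0 * ψ v) = (φ v - ψ v) / b := by ring
    rw [h2, abs_div, abs_of_pos hb0, div_le_iff₀ hb0]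
    have h3 := hc v
    have h4 := le_abs_self c
    linarith [abs_nonneg c]

/-- **The sum of the squared defects.** -/
theorem defect (T : Finset (𝓞 F)) (hT : ∀ d ∈ T, d ≠ 0)
    (hT' : ∀ d ∈ T, ∀ d' ∈ T, d ≠ d' → ¬ IsSquare ((d * d' : 𝓞 F) : F))
    {Z : Set (HeightOneSpectrum (𝓞 F))} (hZ : Z.Finite) {A B : HeightOneSpectrum (𝓞 F) → ℝ}
    {b : ℝ} (hA : ∀ v, |A v| ≤ b) (hB : ∀ v, |B v| ≤ b)
    {fd : 𝓞 F → HeightOneSpectrum (𝓞 F) → ℝ} (hfd : ∀ d ∈ T, ∀ v, |fd d v| ≤ b)
    (hrel : ∀ d ∈ T, ∀ v, v ∉ Z → 2 * d ∉ v.asIdeal →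
      (ch d v = 1 → fd d v = A v) ∧ (ch d v = -1 → fd d v = B v))
    {I J : ℝ} (hI : Tendsto (W529.ST.mean F fun v => (A v + B v) / 2) atTop (𝓝 I))
    (hJ : Tendsto (W529.ST.mean F fun v => ((A v - B v) / 2) ^ 2) atTop (𝓝 J)) {η : ℝ} (hη : 0 < η) :
    ∀ᶠ N : ℕ in atTop, ∑ d ∈ T, (W529.ST.mean F (fd d) N - I) ^ 2 ≤ J + η := by
  classical
  obtain ⟨v₀⟩ : Nonempty (HeightOneSpectrum (𝓞 F)) := by
    by_contra hcon
    have hemp := not_nonempty_iff.1 hcon
    obtain ⟨n, hn⟩ := eventually_atTop.1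
      ((Pool.Agent.W529.ST.card_atTop F).eventually_ge_atTop (1 : ℝ))
    have h1 := hn n le_rfl
    have h2 : IsEmpty {v : HeightOneSpectrum (𝓞 F) // Ideal.absNorm v.asIdeal ≤ n} :=
      ⟨fun v => hemp.elim v.1⟩
    rw [Nat.card_of_isEmpty] at h1
    norm_num at h1
  have hb0 : 0 ≤ b := (abs_nonneg _).trans (hA v₀)
  set G : HeightOneSpectrum (𝓞 F) → ℝ := fun v => (A v + B v) / 2 with hG
  set H : HeightOneSpectrum (𝓞 F) → ℝ := fun v => (A v - B v) / 2 with hH
  have hG1 : ∀ v, |G v| ≤ b := by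
    intro v
    have h1 := abs_le.1 (hA v)
    have h2 := abs_le.1 (hB v)
    rw [hG]
    simp only
    rw [abs_le]
    constructor <;> linarith [h1.1, h1.2, h2.1, h2.2]
  have hH1 : ∀ v, |H v| ≤ b := by
    intro v
    have h1 := abs_le.1 (hA v)
    have h2 := abs_le.1 (hB v)
    rw [hH]
    simp only
    rw [abs_le]
    constructor <;> linarith [h1.1, h1.2, h2.1, h2.2]
  set u : 𝓞 F → ℕ → ℝ := fun d N => W529.ST.mean F (fun v => H v * ch d v) N with hu
  have hu1 : ∀ d N, |u d N| ≤ b := by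
    intro d N
    refine mn_abs hb0 (fun v => ?_) N
    rw [abs_mul]
    calc |H v| * |ch d v| ≤ b * 1 := mul_le_mul (hH1 v) (ch_abs d v) (abs_nonneg _) hb0
      _ = b := mul_one b
  -- the error terms
  set e : 𝓞 F → ℕ → ℝ := fun d N => W529.ST.mean F (fd d) N - I - u d N with he
  have he0 : ∀ d ∈ T, Tendsto (e d) atTop (𝓝 0) := by
    intro d hd
    have h1 := tendsto_off (F := F) (finite_bad T hT hZ) (φ := fd d)
      (ψ := fun v => 1 * G v + 1 * (H v * ch d v)) (c := 3 * b) (fun v => ?_) (fun v hv => ?_)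
    · have h2 : Tendsto (fun N => W529.ST.mean F G N - I) atTop (𝓝 0) := by
        have := hI.sub_const I
        rwa [sub_self] at this
      have h3 := h1.add h2
      rw [add_zero] at h3
      refine h3.congr fun N => ?_
      rw [mn_lin, he, hu]
      ring
    · have h2 := hfd d hd v
      have h3 := hG1 v
      have h4 : |H v * ch d v| ≤ b := by
        rw [abs_mul]
        calc |H v| * |ch d v| ≤ b * 1 := mul_le_mul (hH1 v) (ch_abs d v) (abs_nonneg _) hb0
          _ = b := mul_one b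
      have h2 := abs_le.1 h2
      have h3 := abs_le.1 h3
      have h4 := abs_le.1 h4
      rw [abs_le]
      constructor <;> linarith [h2.1, h2.2, h3.1, h3.2, h4.1, h4.2]
    · have hv1 : v ∉ Z := fun h => hv (Or.inl h)
      have hv2 : 2 * d ∉ v.asIdeal := fun h => hv (Or.inr (Set.mem_biUnion hd h))
      obtain ⟨h2, h3⟩ := hrel d hd v hv1 hv2
      rcases ch_dichotomy d hv2 with ⟨_, h4⟩ | ⟨_, h4⟩
      · rw [h2 h4, h4, hG, hH]
        ring
      · rw [h3 h4, h4, hG, hH]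
        ring
  have hR : Tendsto (fun N => ∑ d ∈ T, (2 * u d N * e d N + e d N ^ 2)) atTop (𝓝 0) := by
    have h1 : ∀ d ∈ T, Tendsto (fun N => 2 * u d N * e d N + e d N ^ 2) atTop (𝓝 0) := by
      intro d hd
      have h2 : Tendsto (fun N => 2 * u d N * e d N) atTop (𝓝 0) := by
        rw [tendsto_zero_iff_abs_tendsto_zero]
        have h3 : Tendsto (fun N => (2 * b) * |e d N|) atTop (𝓝 ((2 * b) * |(0 : ℝ)|)) :=
          ((he0 d hd).abs).const_mul _
        rw [abs_zero, mul_zero] at h3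
        refine squeeze_zero (fun N => abs_nonneg _) (fun N => ?_) h3
        simp only [Function.comp_apply]
        rw [abs_mul, abs_mul, abs_two]
        refine mul_le_mul_of_nonneg_right ?_ (abs_nonneg _)
        linarith [hu1 d N]
      have h3 : Tendsto (fun N => e d N ^ 2) atTop (𝓝 (0 ^ 2)) := (he0 d hd).pow 2
      have h4 := h2.add h3
      simpa using h4
    have h2 := tendsto_finsetSum T h1
    simpa using h2
  have hJ0 : 0 ≤ J := by
    refine ge_of_tendsto' hJ fun N => ?_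
    obtain ⟨t, _, _, hmean⟩ := mean_def (F := F) (fun _ => 0) N
    rw [hmean]
    exact div_nonneg (Finset.sum_nonneg fun v _ => sq_nonneg _) (Nat.cast_nonneg _)
  set δ : ℝ := η / (4 * (J + 1)) with hδ
  have hδ0 : 0 < δ := by positivity
  have hlim : Tendsto (fun N => (1 + δ) * W529.ST.mean F (fun v => H v ^ 2) N) atTop (𝓝 ((1 + δ) * J)) :=
    hJ.const_mul _
  have hlt : (1 + δ) * J < J + η / 2 := by
    have h1 : δ * J ≤ η / 4 := by
      rw [hδ, div_mul_eq_mul_div, div_le_div_iff₀ (by positivity) (by norm_num)]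
      nlinarith
    linarith
  filter_upwards [bessel_unif T hT hT' hδ0, hlim.eventually_lt_const hlt,
    hR.eventually_lt_const (show (0 : ℝ) < η / 2 by positivity)] with N h1 h2 h3
  have h4 := h1 H
  have h5 : ∑ d ∈ T, (W529.ST.mean F (fd d) N - I) ^ 2 =
      ∑ d ∈ T, u d N ^ 2 + ∑ d ∈ T, (2 * u d N * e d N + e d N ^ 2) := by
    rw [← Finset.sum_add_distrib]
    refine Finset.sum_congr rfl fun d _ => ?_
    rw [he]
    ring
  rw [h5]
  have h6 : ∑ d ∈ T, u d N ^ 2 ≤ (1 + δ) * W529.ST.mean F (fun v => H v ^ 2) N := h4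
  linarith

end Pool.Agent.U681.STw
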