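import Pool.Agent.K4H40.ST.Defs

/-!
# Quadratic twists of Galois representations and the coefficients of the `L`-polynomials
-/

set_option autoImplicit false

namespace Pool.Agent.U681.STw

open NumberField IsDedekindDomain Filter Topology MeasureTheory

/-- `r'` is the quadratic twist of the representation `r` of `Gal(Ω/F)` by `d`: for a square root `s`
of `d` in `Ω`, `r' σ = r σ` if `σ s = s`, and `r' σ = -r σ` otherwise. -/
def IsTwist {F Ω : Type} [Field F] [NumberField F] [Field Ω] [Algebra F Ω] {g : ℕ}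
    (r r' : Gal(Ω/F) →* GL (Fin g ⊕ Fin g) ℂ) (d : 𝓞 F) : Prop :=
  ∃ s : Ω, s ^ 2 = algebraMap F Ω (d : F) ∧
    ∀ σ : Gal(Ω/F), (σ s = s → r' σ = r σ) ∧ (σ s ≠ s → r' σ = -r σ)

/-- The coefficient `a_i` of `T ^ i` in `det (1 - M T)`; it is a real number for the elements `M` of a
compact group of symplectic matrices. -/
noncomputable def cf {g : ℕ} (i : ℕ) (M : GL (Fin g ⊕ Fin g) ℂ) : ℝ :=
  ((Matrix.charpolyRev (M : Matrix (Fin g ⊕ Fin g) (Fin g ⊕ Fin g) ℂ)).coeff i).re

/-- the mean of the function `φ` over the primes of `F` of norm at most `N` -/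
noncomputable def mean (F : Type) [Field F] [NumberField F] (φ : HeightOneSpectrum (𝓞 F) → ℝ)
    (N : ℕ) : ℝ :=
  (∑ᶠ v : {v : HeightOneSpectrum (𝓞 F) // Ideal.absNorm v.asIdeal ≤ N}, φ v.1) /
    (Nat.card {v : HeightOneSpectrum (𝓞 F) // Ideal.absNorm v.asIdeal ≤ N} : ℝ)

/-- the distribution function at the scale `N`: the proportion of the primes `v` of `F` with norm at
most `N` and `φ v ≤ t` -/
noncomputable def law (F : Type) [Field F] [NumberField F] (φ : HeightOneSpectrum (𝓞 F) → ℝ)
    (N : ℕ) (t : ℝ) : ℝ :=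
  mean F (fun v => open Classical in if φ v ≤ t then 1 else 0) N

end Pool.Agent.U681.STw
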