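import Pool.Agent.K4H40.ST.Zar2
import Pool.Agent.U187.MV.Re
import Pool.Agent.U681.STw.Defs

/-! The coefficients of the characteristic polynomials. -/

set_option autoImplicit false

namespace Pool.Agent.U681.STw

open Matrix Polynomial

variable {n : Type} [Fintype n] [DecidableEq n]

theorem rev_map {R S : Type} [CommRing R] [CommRing S] (f : R →+* S) (M : Matrix n n R) :
    (M.map f).charpolyRev = M.charpolyRev.map f := by
  unfold Matrix.charpolyRev
  have h2 := RingHom.map_det (Polynomial.mapRingHom f) (1 - (X : R[X]) • M.map C)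
  rw [Polynomial.coe_mapRingHom] at h2
  rw [h2]
  congr 1
  ext a b k
  simp [Matrix.sub_apply, Matrix.one_apply, apply_ite]

theorem rev_smul (c : ℂ) (M : Matrix n n ℂ) :
    (c • M).charpolyRev = M.charpolyRev.comp (C c * X) := by
  unfold Matrix.charpolyRev
  have h2 := RingHom.map_det (Polynomial.compRingHom (C c * X : ℂ[X])) (1 - (X : ℂ[X]) • M.map C)
  rw [Polynomial.coe_compRingHom_apply] at h2
  rw [h2]
  congr 1
  refine Matrix.ext fun a b => ?_
  by_cases hab : a = b
  · subst hab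
    simp [Matrix.sub_apply]
    ring
  · simp [Matrix.sub_apply, hab]
    ring

theorem rev_conj (h x : GL n ℂ) : (h * x * h⁻¹ : GL n ℂ).val.charpolyRev = x.val.charpolyRev := by
  rw [← Matrix.reverse_charpoly, ← Matrix.reverse_charpoly, Units.val_mul, Units.val_mul,
    Matrix.coe_units_inv, Matrix.charpoly_units_conj]

theorem coeff_neg (i : ℕ) (x : GL n ℂ) :
    (-x : GL n ℂ).val.charpolyRev.coeff i = (-1) ^ i * x.val.charpolyRev.coeff i := by
  have h1 : (-x : GL n ℂ).val = (-1 : ℂ) • x.val := by simp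
  rw [h1, rev_smul, comp_C_mul_X_coeff, mul_comm]

/-- the coefficients are polynomials in the entries -/
theorem exists_poly (i : ℕ) : ∃ P : MvPolynomial (n × n) ℂ, ∀ c : GL n ℂ,
    Pool.Agent.K4H40.ST.Zar.ev c P = c.val.charpolyRev.coeff i := by
  refine ⟨(Matrix.mvPolynomialX n n ℂ).charpolyRev.coeff i, fun c => ?_⟩
  unfold Pool.Agent.K4H40.ST.Zar.ev
  have h1 := rev_map (MvPolynomial.eval fun p : n × n => c.val p.1 p.2) (Matrix.mvPolynomialX n n ℂ)
  have h2 : (Matrix.mvPolynomialX n n ℂ).map (MvPolynomial.eval fun p : n × n => c.val p.1 p.2) =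
      c.val := by
    ext a b
    simp [Matrix.mvPolynomialX]
  rw [h2] at h1
  rw [h1, coeff_map]

variable {g : ℕ}

theorem cf_conj (i : ℕ) (h x : GL (Fin g ⊕ Fin g) ℂ) : cf i (h * x * h⁻¹) = cf i x := by
  unfold cf
  rw [rev_conj]

theorem cf_neg (i : ℕ) (x : GL (Fin g ⊕ Fin g) ℂ) : cf i (-x) = (-1) ^ i * cf i x := by
  unfold cf
  rw [coeff_neg]
  have h1 : ((-1 : ℂ) ^ i) = (((-1 : ℝ) ^ i : ℝ) : ℂ) := by push_cast; rfl
  rw [h1, Complex.re_ofReal_mul]

theorem continuous_cf (i : ℕ) : Continuous (cf (g := g) i) := by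
  have h := Pool.Agent.U187.MV.continuous_coeff (l := Fin g) i
  exact Complex.continuous_re.comp h

/-- the coefficients are real on a compact group of symplectic matrices -/
theorem cf_real {C : Subgroup (GL (Fin g ⊕ Fin g) ℂ)}
    (hC : IsCompact (C : Set (GL (Fin g ⊕ Fin g) ℂ)))
    (hsp : ∀ c ∈ C, c.val ∈ symplecticGroup (Fin g) ℂ) {c : GL (Fin g ⊕ Fin g) ℂ} (hc : c ∈ C)
    (i : ℕ) : ((cf i c : ℝ) : ℂ) = c.val.charpolyRev.coeff i := by
  have h := Pool.Agent.U187.MV.coeff_real hC hsp hc i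
  exact Complex.conj_eq_iff_re.1 h

end Pool.Agent.U681.STw
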