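import Pool.Agent.W529.ST.Wrap
import Pool.Agent.K4H40.ST.Frob

/-! Frobenius elements and square roots. -/

set_option autoImplicit false

namespace Pool.Agent.U681.STw

open NumberField IsDedekindDomain Pool.Agent.K4H40.ST

variable {F Ω : Type} [Field F] [NumberField F] [Field Ω] [Algebra F Ω]

theorem frob_sqrt [CharZero Ω] {v : HeightOneSpectrum (𝓞 F)} {σ : Gal(Ω/F)} (hσ : IsFrob F Ω v σ)
    {d : 𝓞 F} (h2d : 2 * d ∉ v.asIdeal) {s : Ω} (hs : s ^ 2 = algebraMap F Ω (d : F)) :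
    (σ s = s ∧ Pool.Agent.W529.ST.ch d v = 1) ∨ (σ s ≠ s ∧ Pool.Agent.W529.ST.ch d v = -1) := by
  classical
  obtain ⟨Q, hQ, hQv, hfrob⟩ := hσ
  have hd0 : d ∉ v.asIdeal := fun h => h2d (Ideal.mul_mem_left _ _ h)
  have h20 : (2 : 𝓞 F) ∉ v.asIdeal := fun h => h2d (Ideal.mul_mem_right _ _ h)
  have hint : IsIntegral ℤ s := by
    refine IsIntegral.of_pow (n := 2) zero_lt_two ?_
    rw [hs]
    exact (RingOfIntegers.isIntegral_coe d).algebraMap
  let S : 𝓞 Ω := ⟨s, hint⟩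
  have hS : S ^ 2 = algebraMap (𝓞 F) (𝓞 Ω) d := by
    exact RingOfIntegers.ext hs
  have : v.asIdeal.IsMaximal := v.isMaximal
  let _ : Field (𝓞 F ⧸ v.asIdeal) := Ideal.Quotient.field v.asIdeal
  have hfin : Finite (𝓞 F ⧸ v.asIdeal) := Ring.HasFiniteQuotients.finiteQuotient v.ne_bot
  let _ := Fintype.ofFinite (𝓞 F ⧸ v.asIdeal)
  have hchar : ringChar (𝓞 F ⧸ v.asIdeal) ≠ 2 := by
    intro h
    apply h20
    refine Ideal.Quotient.eq_zero_iff_mem.1 ?_
    have h3 : ((2 : ℕ) : 𝓞 F ⧸ v.asIdeal) = 0 := (ringChar.spec _ 2).2 (by rw [h])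
    rw [map_ofNat]
    exact_mod_cast h3
  have hodd : Fintype.card (𝓞 F ⧸ v.asIdeal) % 2 = 1 := FiniteField.odd_card_of_char_ne_two hchar
  have hq : Ideal.absNorm v.asIdeal = Fintype.card (𝓞 F ⧸ v.asIdeal) := by
    rw [Ideal.absNorm_apply, Submodule.cardQuot_apply, Nat.card_eq_fintype_card]
  set m := Fintype.card (𝓞 F ⧸ v.asIdeal) / 2 with hm
  have hqm : Ideal.absNorm v.asIdeal = 2 * m + 1 := by omega
  have hd0' : Ideal.Quotient.mk v.asIdeal d ≠ 0 := fun h => hd0 (Ideal.Quotient.eq_zero_iff_mem.1 h)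
  have heuler : IsSquare (Ideal.Quotient.mk v.asIdeal d) ↔
      Ideal.Quotient.mk v.asIdeal d ^ m = 1 := FiniteField.isSquare_iff hchar hd0'
  have hSQ : S ∉ Q := by
    intro h
    apply hd0
    rw [← hQv, Ideal.mem_comap, ← hS]
    exact Ideal.pow_mem_of_mem Q h 2 zero_lt_two
  have hfS := hfrob S
  rw [hqm, pow_succ, pow_mul, hS] at hfS
  have hσS : ((σ • S : 𝓞 Ω) : Ω) = σ s := rfl
  have h1 : (σ s) ^ 2 = s ^ 2 := by
    rw [← map_pow, hs, σ.commutes]
  have hs0 : s ≠ 0 := by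
    intro h
    apply hd0
    rw [h, zero_pow two_ne_zero] at hs
    have : (d : F) = 0 := (algebraMap F Ω).injective (by rw [← hs, map_zero])
    have hd : d = 0 := by exact_mod_cast this
    rw [hd]
    exact v.asIdeal.zero_mem
  have hprime : Q.IsPrime := hQ.isPrime
  rcases sq_eq_sq_iff_eq_or_eq_neg.1 h1 with h2 | h2
  · left
    refine ⟨h2, ?_⟩
    have h3 : σ • S = S := RingOfIntegers.ext h2
    rw [h3] at hfS
    have h4 : S * (1 - algebraMap (𝓞 F) (𝓞 Ω) d ^ m) ∈ Q := by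
      have : S * (1 - algebraMap (𝓞 F) (𝓞 Ω) d ^ m) = S - algebraMap (𝓞 F) (𝓞 Ω) d ^ m * S := by ring
      rwa [this]
    have h5 : 1 - d ^ m ∈ v.asIdeal := by
      rw [← hQv, Ideal.mem_comap, map_sub, map_one, map_pow]
      exact (hprime.mem_or_mem h4).resolve_left hSQ
    have h6 : IsSquare (Ideal.Quotient.mk v.asIdeal d) := by
      rw [heuler, ← map_pow]
      have := Ideal.Quotient.eq_zero_iff_mem.2 h5
      rw [map_sub, map_one, sub_eq_zero] at this
      exact this.symm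
    rcases Pool.Agent.W529.ST.ch_dichotomy d h2d with h7 | h7
    · exact h7.2
    · exact absurd h6 h7.1
  · right
    refine ⟨fun h3 => ?_, ?_⟩
    · rw [h3] at h2
      exact hs0 (self_eq_neg.1 h2)
    have h3 : σ • S = -S := RingOfIntegers.ext (by rw [hσS, h2]; rfl)
    rw [h3] at hfS
    have h4 : S * (1 + algebraMap (𝓞 F) (𝓞 Ω) d ^ m) ∈ Q := by
      have h5 : S * (1 + algebraMap (𝓞 F) (𝓞 Ω) d ^ m) =
          -(-S - algebraMap (𝓞 F) (𝓞 Ω) d ^ m * S) := by ring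
      rw [h5]
      exact Q.neg_mem hfS
    have h5 : 1 + d ^ m ∈ v.asIdeal := by
      rw [← hQv, Ideal.mem_comap, map_add, map_one, map_pow]
      exact (hprime.mem_or_mem h4).resolve_left hSQ
    rcases Pool.Agent.W529.ST.ch_dichotomy d h2d with h7 | h7
    · exfalso
      have h8 := heuler.1 h7.1
      have h9 := Ideal.Quotient.eq_zero_iff_mem.2 h5
      rw [map_add, map_one, map_pow, h8] at h9
      apply h20
      refine Ideal.Quotient.eq_zero_iff_mem.1 ?_
      rw [map_ofNat, ← h9]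
      norm_num
    · exact h7.2

end Pool.Agent.U681.STw
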