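import Pool.Agent.K4H40.ST.Zar2
import Pool.Agent.U681.STw.Defs

/-! The Sato-Tate group of a quadratic twist. -/

set_option autoImplicit false

namespace Pool.Agent.U681.STw

open Pool.Agent.K4H40.ST Pool.Agent.K4H40.ST.Zar

variable {g : ℕ} {Γ : Type} [Group Γ]

theorem scal_neg_one {m : Type} [Fintype m] [DecidableEq m] : (scal (-1) : GL m ℂ) = -1 := by
  apply Units.ext
  rw [coe_scal]
  simp

theorem neg_mem_of {H : Subgroup (GL (Fin g ⊕ Fin g) ℂ)} (h1 : (-1 : GL (Fin g ⊕ Fin g) ℂ) ∈ H)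
    {x : GL (Fin g ⊕ Fin g) ℂ} (hx : x ∈ H) : -x ∈ H := by
  have := H.mul_mem h1 hx
  rwa [neg_one_mul] at this

theorem zarG_twist_le (r r' : Γ →* GL (Fin g ⊕ Fin g) ℂ) (V : Subgroup Γ)
    (h : ∀ σ, r' σ = r σ ∨ r' σ = -r σ)
    (hs : (-1 : GL (Fin g ⊕ Fin g) ℂ) ∈ zarG (V.map r)) : zarG r'.range ≤ zarG r.range := by
  refine zarG_min ?_
  rintro _ ⟨σ, rfl⟩
  have h1 : r σ ∈ zarG r.range := le_zarG _ ⟨σ, rfl⟩
  rcases h σ with h2 | h2
  · rw [h2]; exact h1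
  · rw [h2]; exact neg_mem_of (zarG_mono (map_le_range r V) hs) h1

/-- twisting does not change the Zariski closure -/
theorem zarG_twist (r r' : Γ →* GL (Fin g ⊕ Fin g) ℂ) (V : Subgroup Γ)
    (hV : ∀ σ ∈ V, r' σ = r σ) (h : ∀ σ, r' σ = r σ ∨ r' σ = -r σ)
    (hs : (-1 : GL (Fin g ⊕ Fin g) ℂ) ∈ zarG (V.map r)) : zarG r'.range = zarG r.range := by
  refine le_antisymm (zarG_twist_le r r' V h hs) (zarG_twist_le r' r V (fun σ => ?_) ?_)
  · rcases h σ with h2 | h2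
    · exact Or.inl h2.symm
    · right
      rw [h2, neg_neg]
  · have h1 : V.map r' = V.map r := by
      ext x
      simp only [Subgroup.mem_map]
      constructor
      · rintro ⟨σ, hσ, rfl⟩
        exact ⟨σ, hσ, (hV σ hσ).symm⟩
      · rintro ⟨σ, hσ, rfl⟩
        exact ⟨σ, hσ, hV σ hσ⟩
    rw [h1]
    exact hs

theorem G1_twist (r r' : Γ →* GL (Fin g ⊕ Fin g) ℂ) (h : zarG r'.range = zarG r.range) :
    G1 r' = G1 r := by
  ext x
  rw [mem_G1, mem_G1, h]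

theorem st_twist {r r' : Γ →* GL (Fin g ⊕ Fin g) ℂ} (h : G1 r' = G1 r)
    {C : Subgroup (GL (Fin g ⊕ Fin g) ℂ)} (hC : IsSatoTateGroup r C) : IsSatoTateGroup r' C :=
  ⟨hC.compact, by rw [h]; exact hC.sub, by rw [h]; exact hC.dense⟩

theorem neg_one_mem_sp : (-1 : GL (Fin g ⊕ Fin g) ℂ) ∈ sp g := by
  rw [mem_sp]
  simp

section

variable {F Ω : Type} [Field F] [Field Ω] [Algebra F Ω]

theorem index_stab {s : Ω} {a : F} (hs : s ^ 2 = algebraMap F Ω a) :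
    (MulAction.stabilizer Gal(Ω/F) s).index ≠ 0 := by
  have hfin : (MulAction.orbit Gal(Ω/F) s).Finite := by
    refine (Set.toFinite ({s, -s} : Set Ω)).subset ?_
    rintro _ ⟨σ, rfl⟩
    have h1 : (σ s) ^ 2 = s ^ 2 := by
      rw [← map_pow, hs, σ.commutes]
    exact (sq_eq_sq_iff_eq_or_eq_neg.1 h1)
  rw [MulAction.index_stabilizer]
  exact Set.ncard_ne_zero_of_mem (MulAction.mem_orbit_self s) hfin

end

end Pool.Agent.U681.STw
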