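import Pool.Agent.U681.STw.Cf
import Pool.Agent.K4H40.ST.Haar

/-! Integrals over a compact group and its Zariski closure. -/

set_option autoImplicit false

namespace Pool.Agent.U681.STw

open Pool.Agent.K4H40.ST Pool.Agent.K4H40.ST.Zar MeasureTheory

variable {m : Type} [Fintype m] [DecidableEq m]

/-- the comultiplication of a polynomial function on matrices -/
theorem comul (P : MvPolynomial (m × m) ℂ) : ∃ (J : Type) (_ : Fintype J)
    (A B : J → MvPolynomial (m × m) ℂ), ∀ h c : GL m ℂ,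
      ev (h * c) P = ∑ j, ev h (A j) * ev c (B j) := by
  induction P using MvPolynomial.induction_on with
  | C a => exact ⟨Unit, inferInstance, fun _ => MvPolynomial.C a, fun _ => 1, fun h c => by simp [ev]⟩
  | add p q hp hq =>
    obtain ⟨J, _, A, B, h1⟩ := hp
    obtain ⟨J', _, A', B', h2⟩ := hq
    refine ⟨J ⊕ J', inferInstance, Sum.elim A A', Sum.elim B B', fun h c => ?_⟩
    have h3 : ev (h * c) (p + q) = ev (h * c) p + ev (h * c) q := by simp [ev]
    rw [h3, h1, h2, Fintype.sum_sum_type]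
    rfl
  | mul_X p n hp =>
    obtain ⟨J, _, A, B, h1⟩ := hp
    refine ⟨J × m, inferInstance, fun q => A q.1 * MvPolynomial.X (n.1, q.2),
      fun q => B q.1 * MvPolynomial.X (q.2, n.2), fun h c => ?_⟩
    have h3 : ev (h * c) (p * MvPolynomial.X n) =
        ev (h * c) p * ∑ k, (h : Matrix m m ℂ) n.1 k * (c : Matrix m m ℂ) k n.2 := by
      simp [ev, Matrix.mul_apply]
    rw [h3, h1, Fintype.sum_prod_type, Finset.sum_mul_sum]
    refine Finset.sum_congr rfl fun j _ => Finset.sum_congr rfl fun k _ => ?_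
    have h4 : ev h (A j * MvPolynomial.X (n.1, k)) = ev h (A j) * (h : Matrix m m ℂ) n.1 k := by
      simp [ev]
    have h5 : ev c (B j * MvPolynomial.X (k, n.2)) = ev c (B j) * (c : Matrix m m ℂ) k n.2 := by
      simp [ev]
    rw [h4, h5]
    ring

theorem continuous_ev (P : MvPolynomial (m × m) ℂ) : Continuous fun h : GL m ℂ => ev h P := by
  unfold ev
  have h2 : Continuous fun v : (m × m) → ℂ => MvPolynomial.eval v P := MvPolynomial.continuous_eval P
  refine h2.comp ?_
  refine continuous_pi fun p => ?_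
  exact Continuous.matrix_elem Units.continuous_val p.1 p.2

/-- The integral over a compact group of a polynomial function is invariant under translation by the
elements of the Zariski closure. -/
theorem int_zar {C : Subgroup (GL m ℂ)} (hC : IsCompact (C : Set (GL m ℂ))) [MeasurableSpace C]
    [BorelSpace C] (μ : Measure C) [IsProbabilityMeasure μ] [μ.IsMulLeftInvariant]
    (P : MvPolynomial (m × m) ℂ) {h : GL m ℂ} (hh : h ∈ zar (C : Set (GL m ℂ))) :
    ∫ c : C, ev (h * (c : GL m ℂ)) P ∂μ = ∫ c : C, ev (c : GL m ℂ) P ∂μ := by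
  have : CompactSpace C := isCompact_iff_compactSpace.1 hC
  obtain ⟨J, _, A, B, hAB⟩ := comul P
  have hint : ∀ Q : MvPolynomial (m × m) ℂ, Integrable (fun c : C => ev (c : GL m ℂ) Q) μ := by
    intro Q
    exact Pool.Agent.K4H40.ST.Haar.integ μ ((continuous_ev Q).comp continuous_subtype_val)
  have key : ∀ x : GL m ℂ, ∫ c : C, ev (x * (c : GL m ℂ)) P ∂μ =
      ev x (∑ j, A j * MvPolynomial.C (∫ c : C, ev (c : GL m ℂ) (B j) ∂μ)) := by
    intro x
    have h1 : ev x (∑ j, A j * MvPolynomial.C (∫ c : C, ev (c : GL m ℂ) (B j) ∂μ)) =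
        ∑ j, ev x (A j) * ∫ c : C, ev (c : GL m ℂ) (B j) ∂μ := by
      simp [ev]
    rw [h1]
    simp_rw [hAB]
    rw [integral_finsetSum _ fun j _ => (hint (B j)).const_mul _]
    refine Finset.sum_congr rfl fun j _ => ?_
    rw [integral_const_mul]
  have h2 : ev h ((∑ j, A j * MvPolynomial.C (∫ c : C, ev (c : GL m ℂ) (B j) ∂μ)) -
      MvPolynomial.C (∫ c : C, ev (c : GL m ℂ) P ∂μ)) = 0 := by
    refine hh _ fun s hs => ?_
    change ev s _ = 0
    have h3 : ev s ((∑ j, A j * MvPolynomial.C (∫ c : C, ev (c : GL m ℂ) (B j) ∂μ)) -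
      MvPolynomial.C (∫ c : C, ev (c : GL m ℂ) P ∂μ)) =
        ev s (∑ j, A j * MvPolynomial.C (∫ c : C, ev (c : GL m ℂ) (B j) ∂μ)) -
          ∫ c : C, ev (c : GL m ℂ) P ∂μ := by simp [ev]
    rw [h3, ← key, sub_eq_zero]
    exact integral_mul_left_eq_self (fun c : C => ev (c : GL m ℂ) P) (⟨s, hs⟩ : C)
  have h3 : ev h ((∑ j, A j * MvPolynomial.C (∫ c : C, ev (c : GL m ℂ) (B j) ∂μ)) -
      MvPolynomial.C (∫ c : C, ev (c : GL m ℂ) P ∂μ)) =
        ev h (∑ j, A j * MvPolynomial.C (∫ c : C, ev (c : GL m ℂ) (B j) ∂μ)) -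
          ∫ c : C, ev (c : GL m ℂ) P ∂μ := by simp [ev]
  rw [h3, ← key, sub_eq_zero] at h2
  exact h2

end Pool.Agent.U681.STw
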