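import Pool.Agent.U681.STw.Gp
import Pool.Agent.U681.STw.Fr
import Pool.Agent.U681.STw.Hr
import Pool.Agent.U681.STw.Be
import Pool.Agent.K4H40.ST.Final

/-! The laws of the coefficients of the quadratic twists. -/

set_option autoImplicit false

namespace Pool.Agent.U681.STw

open NumberField IsDedekindDomain Filter Topology MeasureTheory
open Pool.Agent.K4H40.ST Pool.Agent.K4H40.ST.Zar
open Pool.Agent.W529.ST (ch)

/-! ### the symmetry of the laws of the coefficients -/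

section

variable {g : ℕ} {C : Subgroup (GL (Fin g ⊕ Fin g) ℂ)}

theorem symm_poly (hC : IsCompact (C : Set (GL (Fin g ⊕ Fin g) ℂ)))
    (hsp : ∀ c ∈ C, c.val ∈ Matrix.symplecticGroup (Fin g) ℂ)
    (h1 : (-1 : GL (Fin g ⊕ Fin g) ℂ) ∈ zar (C : Set (GL (Fin g ⊕ Fin g) ℂ)))
    [MeasurableSpace C] [BorelSpace C] (μ : Measure C) [IsProbabilityMeasure μ]
    [μ.IsMulLeftInvariant] (i : ℕ) (p : Polynomial ℝ) :
    ∫ c : C, p.eval ((-1) ^ i * cf i (c : GL (Fin g ⊕ Fin g) ℂ)) ∂μ =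
      ∫ c : C, p.eval (cf i (c : GL (Fin g ⊕ Fin g) ℂ)) ∂μ := by
  obtain ⟨P, hP⟩ := exists_poly (n := Fin g ⊕ Fin g) i
  have hev : ∀ c : GL (Fin g ⊕ Fin g) ℂ, ev c (Polynomial.aeval P (p.map Complex.ofRealHom)) =
      (p.map Complex.ofRealHom).eval (c.val.charpolyRev.coeff i) := by
    intro c
    have h2 := Polynomial.hom_eval₂ (p.map Complex.ofRealHom)
      (algebraMap ℂ (MvPolynomial ((Fin g ⊕ Fin g) × (Fin g ⊕ Fin g)) ℂ))
      (MvPolynomial.eval fun q : (Fin g ⊕ Fin g) × (Fin g ⊕ Fin g) => c.val q.1 q.2) P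
    rw [Polynomial.aeval_def]
    have h3 : (MvPolynomial.eval fun q : (Fin g ⊕ Fin g) × (Fin g ⊕ Fin g) =>
        c.val q.1 q.2).comp (algebraMap ℂ (MvPolynomial ((Fin g ⊕ Fin g) × (Fin g ⊕ Fin g)) ℂ)) =
        RingHom.id ℂ := by
      ext a
      simp
    have h4 : ev c (Polynomial.eval₂ (algebraMap ℂ _) P (p.map Complex.ofRealHom)) =
      (MvPolynomial.eval fun q : (Fin g ⊕ Fin g) × (Fin g ⊕ Fin g) => c.val q.1 q.2)
        (Polynomial.eval₂ (algebraMap ℂ _) P (p.map Complex.ofRealHom)) := rfl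
    rw [h4, h2, h3, Polynomial.eval, ← hP]
    rfl
  have hre : ∀ t : ℝ, (p.map Complex.ofRealHom).eval (t : ℂ) = ((p.eval t : ℝ) : ℂ) := by
    intro t
    rw [Polynomial.eval_map]
    exact (Polynomial.hom_eval₂ p (RingHom.id ℝ) Complex.ofRealHom t).symm
  have h2 := int_zar hC μ (Polynomial.aeval P (p.map Complex.ofRealHom)) h1
  have e1 : ∀ c : C, ev ((-1 : GL (Fin g ⊕ Fin g) ℂ) * (c : GL (Fin g ⊕ Fin g) ℂ))
      (Polynomial.aeval P (p.map Complex.ofRealHom)) =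
      ((p.eval ((-1) ^ i * cf i (c : GL (Fin g ⊕ Fin g) ℂ)) : ℝ) : ℂ) := by
    intro c
    rw [hev, neg_one_mul, coeff_neg, ← cf_real hC hsp c.2 i, ← hre]
    push_cast
    rfl
  have e2 : ∀ c : C, ev (c : GL (Fin g ⊕ Fin g) ℂ)
      (Polynomial.aeval P (p.map Complex.ofRealHom)) =
      ((p.eval (cf i (c : GL (Fin g ⊕ Fin g) ℂ)) : ℝ) : ℂ) := by
    intro c
    rw [hev, ← cf_real hC hsp c.2 i, ← hre]
  simp_rw [e1, e2] at h2
  rw [integral_complex_ofReal, integral_complex_ofReal] at h2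
  exact_mod_cast h2

theorem symm_law (hC : IsCompact (C : Set (GL (Fin g ⊕ Fin g) ℂ)))
    (hsp : ∀ c ∈ C, c.val ∈ Matrix.symplecticGroup (Fin g) ℂ)
    (h1 : (-1 : GL (Fin g ⊕ Fin g) ℂ) ∈ zar (C : Set (GL (Fin g ⊕ Fin g) ℂ)))
    [MeasurableSpace C] [BorelSpace C] (μ : Measure C) [IsProbabilityMeasure μ]
    [μ.IsMulLeftInvariant] (i : ℕ) {f : ℝ → ℝ} (hf : Continuous f) :
    ∫ c : C, f ((-1) ^ i * cf i (c : GL (Fin g ⊕ Fin g) ℂ)) ∂μ =
      ∫ c : C, f (cf i (c : GL (Fin g ⊕ Fin g) ℂ)) ∂μ := by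
  have : CompactSpace C := isCompact_iff_compactSpace.1 hC
  obtain ⟨B, hB⟩ := hC.exists_bound_of_continuousOn (continuous_cf (g := g) i).continuousOn
  have hint : ∀ h : ℝ → ℝ, Continuous h → ∀ s : ℝ,
      Integrable (fun c : C => h (s * cf i (c : GL (Fin g ⊕ Fin g) ℂ))) μ := by
    intro h hh s
    have hcont : Continuous fun c : C => h (s * cf i (c : GL (Fin g ⊕ Fin g) ℂ)) :=
      hh.comp (continuous_const.mul ((continuous_cf i).comp continuous_subtype_val))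
    exact hcont.integrable_of_hasCompactSupport (HasCompactSupport.of_compactSpace _)
  have hint' : ∀ h : ℝ → ℝ, Continuous h →
      Integrable (fun c : C => h (cf i (c : GL (Fin g ⊕ Fin g) ℂ))) μ := by
    intro h hh
    have := hint h hh 1
    simpa only [one_mul] using this
  refine eq_of_forall_dist_le fun ε hε => ?_
  obtain ⟨p, hp⟩ := exists_polynomial_near_of_continuousOn (-B) B f hf.continuousOn (ε / 2)
    (by positivity)
  have hs : |(-1 : ℝ) ^ i| = 1 := by rw [abs_pow, abs_neg, abs_one, one_pow]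
  have hmem : ∀ c : C, cf i (c : GL (Fin g ⊕ Fin g) ℂ) ∈ Set.Icc (-B) B := fun c =>
    abs_le.1 (hB _ c.2)
  have hmem' : ∀ c : C, (-1) ^ i * cf i (c : GL (Fin g ⊕ Fin g) ℂ) ∈ Set.Icc (-B) B := fun c => by
    refine abs_le.1 ?_
    rw [abs_mul, hs, one_mul]
    exact hB _ c.2
  have h2 : dist (∫ c : C, f ((-1) ^ i * cf i (c : GL (Fin g ⊕ Fin g) ℂ)) ∂μ)
      (∫ c : C, p.eval ((-1) ^ i * cf i (c : GL (Fin g ⊕ Fin g) ℂ)) ∂μ) ≤ ε / 2 := by
    rw [dist_eq_norm, ← integral_sub (hint f hf _) (hint _ p.continuous _)]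
    refine (norm_integral_le_of_norm_le_const (C := ε / 2) (Eventually.of_forall fun c => ?_)).trans ?_
    · rw [Real.norm_eq_abs, abs_sub_comm]
      exact (hp _ (hmem' c)).le
    · simp
  have h3 : dist (∫ c : C, p.eval (cf i (c : GL (Fin g ⊕ Fin g) ℂ)) ∂μ)
      (∫ c : C, f (cf i (c : GL (Fin g ⊕ Fin g) ℂ)) ∂μ) ≤ ε / 2 := by
    rw [dist_eq_norm, ← integral_sub (hint' _ p.continuous) (hint' f hf)]
    refine (norm_integral_le_of_norm_le_const (C := ε / 2) (Eventually.of_forall fun c => ?_)).trans ?_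
    · rw [Real.norm_eq_abs]
      exact (hp _ (hmem c)).le
    · simp
  rw [symm_poly hC hsp h1 μ i p] at h2
  linarith [dist_triangle (∫ c : C, f ((-1) ^ i * cf i (c : GL (Fin g ⊕ Fin g) ℂ)) ∂μ)
    (∫ c : C, p.eval (cf i (c : GL (Fin g ⊕ Fin g) ℂ)) ∂μ)
    (∫ c : C, f (cf i (c : GL (Fin g ⊕ Fin g) ℂ)) ∂μ)]

end

/-! ### twists -/

section

variable {K : Type} [Field K] [NumberField K] {g : ℕ} {R : Type} [CommRing R]
  {ρ : Gal(Kbar K/K) →* GL (Fin g ⊕ Fin g) R} {ι : R →+* ℂ}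

theorem unr (hunr : IsUnramified K (Kbar K) ρ) :
    {v : HeightOneSpectrum (𝓞 K) | ∃ σ, IsInert K (Kbar K) v σ ∧ extend ρ ι σ ≠ 1}.Finite := by
  refine Set.Finite.subset hunr ?_
  rintro v ⟨σ, hσ, hne⟩
  refine ⟨σ, hσ, fun h => hne ?_⟩
  change Matrix.GeneralLinearGroup.map ι (ρ σ) = 1
  rw [h, map_one]

variable {C : Subgroup (GL (Fin g ⊕ Fin g) ℂ)} {x : HeightOneSpectrum (𝓞 K) → C}

theorem neg_one_zar (hC : IsSatoTateGroup (extend ρ ι) C)
    (hx : IsClassSystem K (Kbar K) (extend ρ ι) C x) (V : Subgroup Gal(Kbar K/K))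
    (hV : V.index ≠ 0) : (-1 : GL (Fin g ⊕ Fin g) ℂ) ∈ zarG (V.map (extend ρ ι)) := by
  obtain ⟨c₀, hc₀, hs⟩ := Cls.exists_scal_mem (extend ρ ι) hC hx
    (fun T hT => Fld.exists_not_mem T hT)
  rw [← scal_neg_one]
  exact all_scal_sub (map_le_range _ V) (relIndex_range _ V hV) hc₀ hs (-1)

theorem neg_one_C (hC : IsSatoTateGroup (extend ρ ι) C)
    (hx : IsClassSystem K (Kbar K) (extend ρ ι) C x) :
    (-1 : GL (Fin g ⊕ Fin g) ℂ) ∈ zar (C : Set (GL (Fin g ⊕ Fin g) ℂ)) := by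
  refine hC.dense ((mem_G1 _).2 ⟨?_, neg_one_mem_sp⟩)
  have h := neg_one_zar hC hx ⊤ (by rw [Subgroup.index_top]; exact one_ne_zero)
  rwa [← range_eq_map] at h

theorem zarG_of_twist (hC : IsSatoTateGroup (extend ρ ι) C)
    (hx : IsClassSystem K (Kbar K) (extend ρ ι) C x) {d : 𝓞 K}
    {r' : Gal(Kbar K/K) →* GL (Fin g ⊕ Fin g) ℂ} (hr' : IsTwist (extend ρ ι) r' d) :
    zarG r'.range = zarG (extend ρ ι).range := by
  obtain ⟨s, hs, h⟩ := hr'
  refine zarG_twist _ _ (MulAction.stabilizer Gal(Kbar K/K) s) (fun σ hσ => (h σ).1 hσ)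
    (fun σ => ?_) (neg_one_zar hC hx _ (index_stab hs))
  by_cases hσ : σ s = s
  · exact Or.inl ((h σ).1 hσ)
  · exact Or.inr ((h σ).2 hσ)

/-- the classes of the twist -/
theorem cls_twist (hsymp : IsSymplectic ρ) (hunr : IsUnramified K (Kbar K) ρ)
    (hC : IsSatoTateGroup (extend ρ ι) C)
    (hx : IsClassSystem K (Kbar K) (extend ρ ι) C x) {d : 𝓞 K}
    {r' : Gal(Kbar K/K) →* GL (Fin g ⊕ Fin g) ℂ} (hr' : IsTwist (extend ρ ι) r' d)
    {y : HeightOneSpectrum (𝓞 K) → C} (hy : IsClassSystem K (Kbar K) r' C y) :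
    {v : HeightOneSpectrum (𝓞 K) | ¬ (2 * d ∉ v.asIdeal → ∀ i,
      cf i (y v : GL (Fin g ⊕ Fin g) ℂ) = ch d v ^ i * cf i (x v : GL (Fin g ⊕ Fin g) ℂ))}.Finite := by
  have h1 := Cls.all_frob (extend ρ ι) (unr hunr) (Final.isSim_of ρ ι hsymp) hC hx
    (fun T hT => Fld.exists_not_mem T hT)
  refine (h1.union hy).subset fun v hv => ?_
  by_contra hcon
  apply hv
  simp only [Set.mem_union, Set.mem_setOf_eq, not_or, not_not] at hcon
  obtain ⟨h2, σ, hσ, h, -, he⟩ := hcon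
  intro h2d i
  obtain ⟨h', -, he'⟩ := h2 σ hσ
  rw [Cls.cls_iff] at he
  obtain ⟨s, hs, htw⟩ := hr'
  rw [← cf_conj i h (y v : GL (Fin g ⊕ Fin g) ℂ), he, ← cf_conj i h' (x v : GL (Fin g ⊕ Fin g) ℂ), he']
  rcases frob_sqrt hσ h2d hs with ⟨h3, h4⟩ | ⟨h3, h4⟩
  · rw [(htw σ).1 h3, h4, one_pow, one_mul]
  · rw [(htw σ).2 h3, h4, mul_neg, cf_neg]

end

end Pool.Agent.U681.STw
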